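import Mathlib
import Pool.Agent.H964.CW.Stm
import Pool.Agent.H344.QC.TH

/-! # CW-THg: the supersolution in the ages, general exponent -/

set_option autoImplicit false

open MeasureTheory ProbabilityTheory Filter Finset

namespace Pool.Agent.H331.CW

open Pool.Agent.H964.QC Pool.Agent.H964.CW Pool.Agent.H344.QC

theorem t_THg : S_THg := by
  intro hT1 hRR hHH C0 κ hC0 hκ
  obtain ⟨Ch, hCh, hHg⟩ := hHH
  have hCh0 : 0 ≤ Ch := zero_le_one.trans hCh
  have hC00 : 0 ≤ C0 := zero_le_one.trans hC0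
  obtain ⟨C', hC'⟩ : ∃ C' : ℝ, C' = (5 * C0 + 8 * (κ + 1) * C0 ^ 2) * Ch := ⟨_, rfl⟩
  have hC'0 : 0 ≤ C' := by rw [hC']; positivity
  refine ⟨2 * C' + 1, by linarith, ?_⟩
  intro V _ _ N0 W Ω _ P _ s2 E g η t T hs hN ht hT hRT hE hg0 hg hC
  obtain ⟨hanti, hsum, hsum0⟩ := hHg g hg0 hg
  obtain ⟨Lg, hLg⟩ : ∃ Lg : ℝ, Lg = 1 / g + Real.log (1 + (T : ℝ) / t) := ⟨_, rfl⟩
  have hg1 : 1 ≤ 1 / g := by
    rw [le_div_iff₀ hg0]
    linarith
  rw [← hLg] at hC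
  have hLg1 : 1 ≤ Lg := by
    have : 0 ≤ Real.log (1 + (T : ℝ) / t) := by
      apply Real.log_nonneg
      have : 0 ≤ (T : ℝ) / t := by positivity
      linarith
    linarith
  have hR0 : 0 ≤ RR T := RR_nonneg hRR T
  have hden : 0 < 1 - s2 * RR T := by linarith
  have hE1 : 1 ≤ E := by
    rw [hE, le_div_iff₀ hden]
    have := mul_nonneg hs.le hR0
    linarith
  have hE0 : 0 < E := by linarith
  have hELg : 1 ≤ E * Lg := one_le_mul_of_one_le_of_one_le hE1 hLg1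
  have hs1 : s2 ≤ 1 := by
    have h1 : s2 * 1 ≤ s2 * (E * Lg) := mul_le_mul_of_nonneg_left hELg hs.le
    have h2 : 1 * (s2 * (E * Lg)) ≤ (2 * C' + 1) * (s2 * (E * Lg)) :=
      mul_le_mul_of_nonneg_right (by linarith) (by positivity)
    have h3 : (2 * C' + 1) * (s2 * (E * Lg)) = (2 * C' + 1) * s2 * E * Lg := by ring
    linarith
  have hhalf : C' * s2 * E * Lg ≤ 1 / 2 := by
    have h2 : 0 ≤ s2 * (E * Lg) := by positivity
    have h3 : (2 * C' + 1) * s2 * E * Lg = 2 * (C' * s2 * E * Lg) + s2 * (E * Lg) := by ring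
    linarith
  have hEi : 1 / E = 1 - s2 * RR T := by rw [hE, one_div_one_div]
  obtain ⟨h, hh_def⟩ : ∃ h : ℕ → ℝ, h = hh g t := ⟨_, rfl⟩
  have hh1 : ∀ n, 1 ≤ h n := fun n => by rw [hh_def]; exact hh_one_le _ _ _
  have hh0 : ∀ n, 0 ≤ h n := fun n => zero_le_one.trans (hh1 n)
  have han : Antitone h := by rw [hh_def]; exact hanti t
  rw [← hh_def]
  have hsumh : ∀ a : ℕ, ∑ k ∈ Finset.Icc 1 T, h k / ((a : ℝ) + k) ≤ Ch * Lg * h a := by
    intro a; rw [hh_def, hLg]; exact hsum t T a ht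
  have hsum0h : ∀ a : ℕ, h 0 * ∑ k ∈ Finset.Icc 1 T, 1 / ((k : ℝ) * ((a : ℝ) + k)) ≤ Ch * h a := by
    intro a; rw [hh_def]; exact hsum0 t T a ht
  intro j
  induction j using Nat.strong_induction_on with
  | _ j ih =>
  intro a y v hja
  have h1 := unroll hT1 W P hs.le hκ hN j 0 a y v
  have h2 : ∀ k ∈ Finset.range j, EV W P η s2 κ (0 + (k + 1)) (a + (k + 1)) (j - (k + 1)) y v ≤
      2 * E * (s2 * (rr (k + 1) * h a) + 5 * C0 * s2 * (h (k + 1) / ((a : ℝ) + ((k + 1 : ℕ) : ℝ))) +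
      8 * (κ + 1) * C0 ^ 2 * s2 * (h 0 * (1 / (((k + 1 : ℕ) : ℝ) *
        ((a : ℝ) + ((k + 1 : ℕ) : ℝ)))))) := by
    intro k hk
    have hkj : k < j := Finset.mem_range.1 hk
    rw [zero_add]
    have hlt : j - (k + 1) < j := by omega
    have h3 := EV_le W P (η := η) hs.le hs1 hκ (A := 2 * E) (by positivity) hh0 han
      (k := k + 1) (l := a + (k + 1)) (i := j - (k + 1)) (by omega) (by omega) (by omega)
      (fun y v => ih _ hlt (k + 1) y v (by omega))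
      (fun y v => ih _ hlt (a + (k + 1)) y v (by omega))
      (fun y v => ih _ hlt 0 y v (by omega)) y v
    refine h3.trans ?_
    rw [Nat.cast_add a (k + 1)]
    have h4 : h (a + (k + 1)) ≤ h a := han (by omega)
    have h5 : s2 * (rr (k + 1) * h (a + (k + 1))) ≤ s2 * (rr (k + 1) * h a) :=
      mul_le_mul_of_nonneg_left (mul_le_mul_of_nonneg_left h4 (hRR.1 _).le) hs.le
    refine mul_le_mul_of_nonneg_left ?_ (by positivity)
    linarith
  have h3 := Finset.sum_le_sum h2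
  rw [← Finset.mul_sum, Finset.sum_add_distrib, Finset.sum_add_distrib, ← Finset.mul_sum,
    ← Finset.mul_sum, ← Finset.mul_sum, ← Finset.sum_mul, ← Finset.mul_sum] at h3
  have hjT : j ≤ T := by omega
  have s1 : ∑ k ∈ Finset.range j, rr (k + 1) ≤ RR T :=
    sum_shift_le (f := rr) (fun k _ => (hRR.1 k).le) hjT
  have s2' : ∑ k ∈ Finset.range j, h (k + 1) / ((a : ℝ) + ((k + 1 : ℕ) : ℝ)) ≤
      Ch * Lg * h a :=
    (sum_shift_le (f := fun k => h k / ((a : ℝ) + (k : ℝ)))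
      (fun k _ => div_nonneg (hh0 k) (by positivity)) hjT).trans (hsumh a)
  have s3 : h 0 * ∑ k ∈ Finset.range j, 1 / (((k + 1 : ℕ) : ℝ) * ((a : ℝ) + ((k + 1 : ℕ) : ℝ))) ≤
      Ch * h a :=
    (mul_le_mul_of_nonneg_left (sum_shift_le (f := fun k => 1 / ((k : ℝ) * ((a : ℝ) + (k : ℝ))))
      (fun k _ => by positivity) hjT) (hh0 0)).trans (hsum0h a)
  have s3' : Ch * h a ≤ Ch * Lg * h a := by
    have : Ch * 1 ≤ Ch * Lg := mul_le_mul_of_nonneg_left hLg1 hCh0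
    have := mul_le_mul_of_nonneg_right this (hh0 a)
    linarith
  have e1 : s2 * ((∑ k ∈ Finset.range j, rr (k + 1)) * h a) ≤ s2 * (RR T * h a) :=
    mul_le_mul_of_nonneg_left (mul_le_mul_of_nonneg_right s1 (hh0 a)) hs.le
  have e2 : 5 * C0 * s2 * ∑ k ∈ Finset.range j, h (k + 1) / ((a : ℝ) + ((k + 1 : ℕ) : ℝ)) ≤
      5 * C0 * s2 * (Ch * Lg * h a) := mul_le_mul_of_nonneg_left s2' (by positivity)
  have e3 : 8 * (κ + 1) * C0 ^ 2 * s2 * (h 0 * ∑ k ∈ Finset.range j,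
      1 / (((k + 1 : ℕ) : ℝ) * ((a : ℝ) + ((k + 1 : ℕ) : ℝ)))) ≤
      8 * (κ + 1) * C0 ^ 2 * s2 * (Ch * Lg * h a) :=
    mul_le_mul_of_nonneg_left (s3.trans s3') (by positivity)
  have e4 : 5 * C0 * s2 * (Ch * Lg * h a) + 8 * (κ + 1) * C0 ^ 2 * s2 * (Ch * Lg * h a) =
      C' * s2 * Lg * h a := by rw [hC']; ring
  have e5 : 2 * E * (s2 * ((∑ k ∈ Finset.range j, rr (k + 1)) * h a) +
      5 * C0 * s2 * (∑ k ∈ Finset.range j, h (k + 1) / ((a : ℝ) + ((k + 1 : ℕ) : ℝ))) +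
      8 * (κ + 1) * C0 ^ 2 * s2 * (h 0 * ∑ k ∈ Finset.range j,
      1 / (((k + 1 : ℕ) : ℝ) * ((a : ℝ) + ((k + 1 : ℕ) : ℝ))))) ≤
      2 * E * (s2 * (RR T * h a) + C' * s2 * Lg * h a) :=
    mul_le_mul_of_nonneg_left (by linarith) (by positivity)
  have e6 : 2 * E * (s2 * (RR T * h a) + C' * s2 * Lg * h a) =
      2 * E * h a - 2 * h a * (1 - C' * s2 * E * Lg) := by
    have : s2 * RR T = 1 - 1 / E := by rw [hEi]; ring
    have h8 : E * (1 / E) = 1 := mul_one_div_cancel hE0.ne'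
    calc 2 * E * (s2 * (RR T * h a) + C' * s2 * Lg * h a)
        = 2 * h a * (E * (s2 * RR T) + C' * s2 * E * Lg) := by ring
      _ = 2 * h a * (E - E * (1 / E) + C' * s2 * E * Lg) := by rw [this]; ring
      _ = _ := by rw [h8]; ring
  have e7 : 1 ≤ 2 * h a * (1 - C' * s2 * E * Lg) := by
    have := hh1 a
    nlinarith
  linarith

end Pool.Agent.H331.CW
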